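import Pool.Agent.Helper67.R6.Fam
import Pool.Agent.Helper25.RS.CNT

set_option autoImplicit false

namespace Pool.Helper67.R6

open Pool.Helper17.RS (RS NR ST_GEN cnt_RS_fin)

theorem st_FIN (hFIN1 : ST_FIN1) (hGEN : ST_GEN) : ST_FIN := by
  intro ε hε
  obtain ⟨C, hC, h1⟩ := hFIN1
  set δ : ℝ := min ε 1 with hδ
  have hδ0 : 0 < δ := lt_min hε one_pos
  have hδ1 : δ ≤ 1 := min_le_right _ _
  have hδε : δ ≤ ε := min_le_left _ _
  obtain ⟨c, hc, m0, hm⟩ := h1 δ hδ0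
  have he : (0 : ℝ) < (8 - δ) / 2 := by linarith
  have hk : (0 : ℝ) < c * (1 / 2) ^ (8 - δ) := by positivity
  obtain ⟨c', hc', H₀, hH⟩ := hGEN 6 C hC ((8 - δ) / 2) (c * (1 / 2) ^ (8 - δ)) he hk
    ((m0 + 1) ^ 2) (by
      intro N hN
      set m : ℕ := Nat.sqrt N with hmdef
      have hmm : m ^ 2 ≤ N := by
        rw [hmdef]
        exact Nat.sqrt_le' N
      have hm2 : N < (m + 1) ^ 2 := by
        rw [hmdef]
        exact Nat.lt_succ_sqrt' N
      have hmm0 : m0 + 1 ≤ m := by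
        rw [hmdef, Nat.le_sqrt']
        exact hN
      have hsub : RS 6 C (m ^ 2) ⊆ RS 6 C N := by
        rintro p ⟨a1, a2, a3, a4, a5⟩
        have hle : ((m ^ 2 : ℕ) : ℤ) ≤ (N : ℤ) := by exact_mod_cast hmm
        have h0 : (0 : ℤ) ≤ ((m ^ 2 : ℕ) : ℤ) := by positivity
        refine ⟨a1, a2, a3.trans ?_, a4.trans ?_, a5⟩
        · exact mul_le_mul_of_nonneg_left (pow_le_pow_left₀ h0 hle 4) (by linarith)
        · exact mul_le_mul_of_nonneg_left (pow_le_pow_left₀ h0 hle 6) (by linarith)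
      have hcard : ((RS 6 C (m ^ 2)).ncard : ℝ) ≤ ((RS 6 C N).ncard : ℝ) := by
        exact_mod_cast Set.ncard_le_ncard hsub (cnt_RS_fin 6 C N)
      refine le_trans ?_ (le_trans (hm m (by omega)) hcard)
      rw [mul_assoc]
      apply mul_le_mul_of_nonneg_left _ hc.le
      have hm1 : (1 : ℝ) ≤ (m : ℝ) := by
        have : 1 ≤ m := by omega
        exact_mod_cast this
      have hN2 : (N : ℝ) ≤ (2 * (m : ℝ)) ^ (2 : ℝ) := by
        have h2 : (N : ℝ) ≤ ((m : ℝ) + 1) ^ 2 := by exact_mod_cast hm2.le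
        rw [Real.rpow_two]
        nlinarith
      have h3 : (N : ℝ) ^ ((8 - δ) / 2) ≤ (2 * (m : ℝ)) ^ (8 - δ) := by
        have h4 := Real.rpow_le_rpow (by positivity) hN2 he.le
        rw [← Real.rpow_mul (by positivity)] at h4
        have h5 : (2 : ℝ) * ((8 - δ) / 2) = 8 - δ := by ring
        rwa [h5] at h4
      calc (1 / 2 : ℝ) ^ (8 - δ) * (N : ℝ) ^ ((8 - δ) / 2)
          ≤ (1 / 2 : ℝ) ^ (8 - δ) * (2 * (m : ℝ)) ^ (8 - δ) :=
            mul_le_mul_of_nonneg_left h3 (by positivity)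
        _ = (m : ℝ) ^ (8 - δ) := by
            rw [← Real.mul_rpow (by norm_num) (by positivity)]
            congr 1
            ring)
  have hgap : (0 : ℝ) < ε - δ / 24 := by linarith
  refine ⟨max H₀ (max 1 ((1 / c') ^ (1 / (ε - δ / 24)))), fun H hH' => ?_⟩
  have e1 : H₀ ≤ H := le_trans (le_max_left _ _) hH'
  have e2 : (1 : ℝ) ≤ H := le_trans (le_trans (le_max_left _ _) (le_max_right _ _)) hH'
  have e3 : (1 / c') ^ (1 / (ε - δ / 24)) ≤ H :=
    le_trans (le_trans (le_max_right _ _) (le_max_right _ _)) hH'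
  have hpos : (0 : ℝ) < H := by linarith
  have e4 : 1 / c' ≤ H ^ (ε - δ / 24) := by
    have := Real.rpow_le_rpow (by positivity) e3 hgap.le
    rwa [← Real.rpow_mul (by positivity), one_div_mul_cancel hgap.ne', Real.rpow_one] at this
  refine le_trans ?_ (hH H e1)
  have e5 : H ^ ((8 - δ) / 2 / 12) = H ^ ((1 : ℝ) / 3 - ε) * H ^ (ε - δ / 24) := by
    rw [← Real.rpow_add hpos]
    congr 1
    ring
  rw [e5]
  have e6 : (1 : ℝ) ≤ c' * H ^ (ε - δ / 24) := by
    have := mul_le_mul_of_nonneg_left e4 hc'.le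
    rwa [mul_one_div_cancel hc'.ne'] at this
  have e7 : (0 : ℝ) ≤ H ^ ((1 : ℝ) / 3 - ε) := by positivity
  nlinarith

end Pool.Helper67.R6
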